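import Mathlib

set_option autoImplicit false
open Filter Topology Set

namespace Pool.Agent.H.MP_e29dfb_an

lemma conv {K : Set ℝ} (hK : IsCompact K)
    (hm : ∀ p q, p ∉ K → q ∉ K → p ≤ q → q - p ≤ 2 → (p + q) / 2 ∉ K)
    {p q x : ℝ} (hp : p ∉ K) (hq : q ∉ K) (h1 : p ≤ x) (h2 : x ≤ q) (h3 : q - p ≤ 2) :
    x ∉ K := by
  intro hx
  obtain ⟨l, ⟨hlK, hl1, hl2⟩, hl⟩ := (hK.inter_right (isClosed_Icc (a := p) (b := q))).exists_isLeast
    ⟨x, hx, h1, h2⟩
  have hpl : p < l := lt_of_le_of_ne hl1 fun h => hp (h ▸ hlK)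
  have hlq : l < q := lt_of_le_of_ne hl2 fun h => hq (h ▸ hlK)
  have hU : ∀ a, p ≤ a → a < l → a ∉ K := fun a ha ha' haK =>
    absurd (hl ⟨haK, ha, by linarith⟩) (not_le.2 ha')
  have key : ∀ n : ℕ, ∀ b, b ∉ K → l < b → b ≤ q → b - l ≤ (l - p) * 2 ^ n → False := by
    have base : ∀ b, b ∉ K → l < b → b ≤ q → b - l ≤ l - p → False := by
      intro b hb h4 h5 h6
      have := hm (2 * l - b) b (hU _ (by linarith) (by linarith)) hb (by linarith) (by linarith)
      rw [show (2 * l - b + b) / 2 = l by ring] at this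
      exact this hlK
    intro n
    induction n with
    | zero => intro b hb h4 h5 h6; exact base b hb h4 h5 (by simpa using h6)
    | succ n ih =>
      intro b hb h4 h5 h6
      by_cases h7 : b - l ≤ l - p
      · exact base b hb h4 h5 h7
      · rw [pow_succ] at h6
        exact ih ((p + b) / 2) (hm p b hp hb (by linarith) (by linarith)) (by linarith)
          (by linarith) (by linarith)
  obtain ⟨n, hn⟩ := pow_unbounded_of_one_lt ((q - l) / (l - p)) (show (1 : ℝ) < 2 by norm_num)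
  rw [div_lt_iff₀ (by linarith)] at hn
  exact key n q hq hlq le_rfl (by linarith)

lemma conv' {K : Set ℝ}
    (hc : ∀ p q x : ℝ, p ∉ K → q ∉ K → p ≤ x → x ≤ q → q - p ≤ 2 → x ∉ K)
    {p q t : ℝ} (hp : p ∉ K) (hq : q ∉ K) (h : |p - q| ≤ 2) (h0 : 0 ≤ t) (h1 : t ≤ 1) :
    p + t * (q - p) ∉ K := by
  rw [abs_le] at h
  rcases le_total p q with h2 | h2
  · exact hc p q _ hp hq (by nlinarith) (by nlinarith) (by linarith)
  · exact hc q p _ hq hp (by nlinarith) (by nlinarith) (by linarith)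

lemma three {K : Set ℝ}
    (hc : ∀ p q x : ℝ, p ∉ K → q ∉ K → p ≤ x → x ≤ q → q - p ≤ 2 → x ∉ K)
    {a x y z : ℝ} (hx : x ∈ K) (hy : y ∈ K) (hz : z ∈ K) (h1 : |x - a| ≤ 1) (h2 : |y - a| ≤ 1)
    (h3 : |z - a| ≤ 1) : uIcc x y ⊆ K ∨ uIcc y z ⊆ K ∨ uIcc x z ⊆ K := by
  have key : ∀ x y z : ℝ, y ∈ K → |x - a| ≤ 1 → |z - a| ≤ 1 → x ≤ y → y ≤ z →
      uIcc x y ⊆ K ∨ uIcc y z ⊆ K := by
    intro x y z hy h1 h3 hxy hyz
    by_contra h
    push Not at h
    obtain ⟨u, hu, hu'⟩ := not_subset.1 h.1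
    obtain ⟨v, hv, hv'⟩ := not_subset.1 h.2
    rw [uIcc_of_le hxy] at hu
    rw [uIcc_of_le hyz] at hv
    rw [abs_le] at h1 h3
    exact hc u v y hu' hv' hu.2 hv.1 (by linarith [hu.1, hv.2]) hy
  rcases le_total x y with a1 | a1 <;> rcases le_total y z with a2 | a2 <;>
    rcases le_total x z with a3 | a3
  · have := key x y z hy h1 h3 a1 a2; tauto
  · have := key x y z hy h1 h3 a1 a2; tauto
  · have := key x z y hz h1 h2 a3 a2; rw [uIcc_comm z y] at this; tauto
  · have := key z x y hx h3 h2 a3 a1; rw [uIcc_comm z x] at this; tauto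
  · have := key y x z hx h2 h3 a1 a3; rw [uIcc_comm y x] at this; tauto
  · have := key y z x hz h2 h1 a2 a3; rw [uIcc_comm z x] at this; tauto
  · have := key z y x hy h3 h1 a2 a1; rw [uIcc_comm z y, uIcc_comm y x] at this; tauto
  · have := key z y x hy h3 h1 a2 a1; rw [uIcc_comm z y, uIcc_comm y x] at this; tauto

/-- the compact set that is not a center of distances -/
def C : Set ℝ := Icc 0 1 ∪ insert 2 (range fun n : ℕ => 2 + 1 / ((n : ℝ) + 1))

lemma C_compact : IsCompact C := by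
  refine isCompact_Icc.union (Tendsto.isCompact_insert_range ?_)
  simpa using tendsto_one_div_add_atTop_nhds_zero_nat.const_add (2 : ℝ)

lemma C_nonneg : C ⊆ Ici 0 := by
  rintro x (h | rfl | ⟨n, rfl⟩)
  · exact h.1
  · simp
  · show (0 : ℝ) ≤ _
    positivity

/-- excluded values -/
noncomputable def al (n : ℕ) : ℝ := 2 + 1 / ((n : ℝ) + 3 / 2)

lemma al_not (n : ℕ) : al n ∉ C := by
  have h0 : 0 < 1 / ((n : ℝ) + 3 / 2) := by positivity
  rintro (h | h | ⟨m, h⟩)
  · have := h.2; unfold al at this; linarith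
  · unfold al at h; linarith
  · simp only [al, add_right_inj] at h
    rw [div_eq_div_iff (by positivity) (by positivity)] at h
    have h2 : ((2 * n + 1 : ℕ) : ℝ) = ((2 * m : ℕ) : ℝ) := by push_cast; linarith
    have h3 : 2 * n + 1 = 2 * m := by exact_mod_cast h2
    omega

theorem main (K : Set ℝ) (hK : IsCompact K) :
    {α : ℝ | 0 ≤ α ∧ ∀ x ∈ K, ∃ y ∈ K, |x - y| = α} ≠ C := by
  intro h
  have hin : ∀ α ∈ C, ∀ x ∈ K, x + α ∉ K → x - α ∉ K → False := by
    intro α hα x hx h1 h2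
    rw [← h] at hα
    obtain ⟨y, hy, hy'⟩ := hα.2 x hx
    rcases (abs_eq hα.1).1 hy' with h3 | h3
    · exact h2 (by rwa [show x - α = y by linarith])
    · exact h1 (by rwa [show x + α = y by linarith])
  have hout : ∀ n, ∃ x ∈ K, x + al n ∉ K ∧ x - al n ∉ K := by
    intro n
    have h0 : 0 ≤ al n := by unfold al; positivity
    by_contra h1
    push Not at h1
    apply al_not n
    rw [← h]
    refine ⟨h0, fun x hx => ?_⟩
    by_cases h2 : x + al n ∈ K
    · exact ⟨_, h2, by simp [abs_of_nonneg h0]⟩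
    · exact ⟨_, h1 x hx h2, by simp [abs_of_nonneg h0]⟩
  have hc : ∀ p q x : ℝ, p ∉ K → q ∉ K → p ≤ x → x ≤ q → q - p ≤ 2 → x ∉ K := by
    intro p q x hp hq h1 h2 h3
    refine conv hK (fun p q hp hq h1 h2 hm => ?_) hp hq h1 h2 h3
    refine hin ((q - p) / 2) (Or.inl ⟨by linarith, by linarith⟩) _ hm ?_ ?_
    · rwa [show (p + q) / 2 + (q - p) / 2 = q by ring]
    · rwa [show (p + q) / 2 - (q - p) / 2 = p by ring]
  choose x hx hx1 hx2 using hout
  have pair : ∀ i j, i < j → |x i - x j| ≤ 1 → ¬ uIcc (x i) (x j) ⊆ K := by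
    intro i j hij h1 h2
    have hij' : (i : ℝ) + 1 ≤ j := by exact_mod_cast hij
    set γ : ℝ := 2 + 1 / (((i + 1 : ℕ) : ℝ) + 1) with hγ
    have b1 : γ < al i := by
      rw [hγ, al]; push_cast
      have := one_div_lt_one_div_of_lt (show (0 : ℝ) < i + 3 / 2 by positivity)
        (show (i : ℝ) + 3 / 2 < i + 1 + 1 by linarith)
      linarith
    have b2 : al j < γ := by
      rw [hγ, al]; push_cast
      have := one_div_lt_one_div_of_lt (show (0 : ℝ) < i + 1 + 1 by positivity)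
        (show (i : ℝ) + 1 + 1 < j + 3 / 2 by linarith)
      linarith
    have b3 : al i - al j ≤ 1 := by
      have c1 : 1 / ((i : ℝ) + 3 / 2) ≤ 1 := by
        rw [div_le_one (by positivity)]; linarith [(Nat.cast_nonneg i : (0 : ℝ) ≤ i)]
      have c2 : 0 < 1 / ((j : ℝ) + 3 / 2) := by positivity
      unfold al; linarith
    set t := (al i - γ) / (al i - al j) with ht
    have t0 : 0 ≤ t := div_nonneg (by linarith) (by linarith)
    have t1 : t ≤ 1 := (div_le_one (by linarith)).2 (by linarith)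
    have t2 : t * (al i - al j) = al i - γ := div_mul_cancel₀ _ (by linarith)
    rw [abs_le] at h1
    refine hin γ (Or.inr (Or.inr ⟨i + 1, rfl⟩)) (x i + t * (x j - x i)) (h2 ?_) ?_ ?_
    · rcases le_total (x i) (x j) with h3 | h3
      · rw [uIcc_of_le h3]; constructor <;> nlinarith
      · rw [uIcc_of_ge h3]; constructor <;> nlinarith
    · have := conv' hc (hx1 i) (hx1 j) (abs_le.2 ⟨by linarith, by linarith⟩) t0 t1
      rwa [show x i + al i + t * (x j + al j - (x i + al i)) = x i + t * (x j - x i) + γ by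
        linarith] at this
    · have := conv' hc (hx2 i) (hx2 j) (abs_le.2 ⟨by linarith, by linarith⟩) t0 t1
      rwa [show x i - al i + t * (x j - al j - (x i - al i)) = x i + t * (x j - x i) - γ by
        linarith] at this
  obtain ⟨a, -, φ, hφ, hlim⟩ := hK.tendsto_subseq hx
  obtain ⟨N, hN⟩ := Metric.tendsto_atTop.1 hlim (1 / 2) (by norm_num)
  have e : ∀ k, N ≤ k → |x (φ k) - a| ≤ 1 / 2 := fun k hk => (hN k hk).le
  have e' : ∀ k l, N ≤ k → N ≤ l → |x (φ k) - x (φ l)| ≤ 1 := fun k l hk hl => by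
    have c1 := abs_le.1 (e k hk)
    have c2 := abs_le.1 (e l hl)
    exact abs_le.2 ⟨by linarith, by linarith⟩
  rcases three hc (a := a) (hx (φ N)) (hx (φ (N + 1))) (hx (φ (N + 2)))
    ((e _ (by omega)).trans (by norm_num)) ((e _ (by omega)).trans (by norm_num))
    ((e _ (by omega)).trans (by norm_num)) with h1 | h1 | h1
  · exact pair _ _ (hφ (by omega)) (e' _ _ (by omega) (by omega)) h1
  · exact pair _ _ (hφ (by omega)) (e' _ _ (by omega) (by omega)) h1
  · exact pair _ _ (hφ (by omega)) (e' _ _ (by omega) (by omega)) h1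

end Pool.Agent.H.MP_e29dfb_an
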